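import Pool.Agent.Q28.MC.Ring

/-!
# Common refinement of two flags of idempotents
-/

namespace Pool.Agent.Q28.MS

open Finset Pool.Agent.Q28.MC

variable {R S : Type*} [Ring R] [Ring S] {f : R →+* S} {p : ℕ → S} {N : ℕ} {e e' : ℕ → R}

/-- The product `E m = P' m * P m` of the partial sums of two systems. -/
def E (e e' : ℕ → R) (m : ℕ) : R := ps e' m * ps e m

/-- The flag `G m = E m * E (m + 1) * ⋯ * E D`, indexed by `k = D - m`. -/
def G' (e e' : ℕ → R) (D : ℕ) : ℕ → R
  | 0 => E e e' D
  | k + 1 => E e e' (D - (k + 1)) * G' e e' D k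

/-- The flag `G m = E m * E (m + 1) * ⋯ * E D`. -/
def G (e e' : ℕ → R) (D m : ℕ) : R := G' e e' D (D - m)

variable (h : IsSys f p N e) (h' : IsSys f p N e') {D : ℕ}
  (hc : ∀ m ≤ D, ps e m * (ps e' m * ps e m) = ps e' m * ps e m)

include h h' hc

omit h h' hc in
lemma G_top : G e e' D D = E e e' D := by rw [G, Nat.sub_self, G']

omit h h' hc in
lemma G_succ {m : ℕ} (hm : m < D) : G e e' D m = E e e' m * G e e' D (m + 1) := by
  rw [G, G]
  obtain ⟨k, hk⟩ : ∃ k, D - m = k + 1 := ⟨D - m - 1, by omega⟩
  rw [hk, G', show D - (m + 1) = k by omega, show D - (k + 1) = m by omega]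

lemma E_mul_E {m n : ℕ} (hmn : m ≤ n) (hn : m ≤ D) : E e e' n * E e e' m = E e e' m := by
  have h1 : ps e n * (ps e' m * ps e m) = ps e' m * ps e m := by
    rw [← hc m hn, ← mul_assoc, h.ps_ps hmn]
  rw [E, E, mul_assoc, h1, ← mul_assoc, h'.ps_ps hmn]

lemma E_mul_G {m : ℕ} (hm : m ≤ D) : E e e' m * G e e' D m = G e e' D m := by
  rcases hm.eq_or_lt with h1 | h1
  · subst h1
    rw [G_top, E_mul_E h h' hc le_rfl le_rfl]
  · rw [G_succ h1, ← mul_assoc, E_mul_E h h' hc le_rfl hm]

lemma G_mul_E {m : ℕ} (hm : m ≤ D) : G e e' D m * E e e' m = E e e' m := by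
  induction hm using Nat.decreasingInduction with
  | self => rw [G_top, E_mul_E h h' hc le_rfl le_rfl]
  | of_succ m hm ih =>
    rw [G_succ hm, mul_assoc]
    have h1 : G e e' D (m + 1) * E e e' m = E e e' m := by
      rw [← E_mul_E h h' hc (Nat.le_succ m) (by omega : m ≤ D), ← mul_assoc, ih]
    rw [h1, E_mul_E h h' hc le_rfl (by omega)]

lemma G_mul_G_of_le {m n : ℕ} (hmn : m ≤ n) (hn : n ≤ D) :
    G e e' D n * G e e' D m = G e e' D m := by
  have h1 : E e e' n * E e e' m = E e e' m := E_mul_E h h' hc hmn (by omega)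
  rw [← E_mul_G h h' hc (by omega : m ≤ D), ← h1]
  calc G e e' D n * (E e e' n * E e e' m * G e e' D m)
      = (G e e' D n * E e e' n) * E e e' m * G e e' D m := by simp only [mul_assoc]
    _ = _ := by rw [G_mul_E h h' hc hn]

lemma G_mul_G_of_ge {m n : ℕ} (hmn : m ≤ n) (hn : n ≤ D) :
    G e e' D m * G e e' D n = G e e' D m := by
  induction hmn using Nat.decreasingInduction with
  | self => exact G_mul_G_of_le h h' hc le_rfl hn
  | of_succ m hm ih => rw [G_succ (by omega), mul_assoc, ih]

/-- The pieces of the flag. -/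
def piece (e e' : ℕ → R) (D n : ℕ) : R := G e e' D (n + 1) - G e e' D n

lemma piece_mul {m n : ℕ} (hm : m < D) (hn : n < D) :
    piece e e' D m * piece e e' D n = if m = n then piece e e' D m else 0 := by
  have key : ∀ a b, a ≤ D → b ≤ D → G e e' D a * G e e' D b = G e e' D (min a b) := by
    intro a b ha hb
    rcases le_total a b with h1 | h1
    · rw [min_eq_left h1, G_mul_G_of_ge h h' hc h1 hb]
    · rw [min_eq_right h1, G_mul_G_of_le h h' hc h1 ha]
  rw [piece, piece, sub_mul, mul_sub, mul_sub, key _ _ (by omega) (by omega),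
    key _ _ (by omega) (by omega), key _ _ (by omega) (by omega), key _ _ (by omega) (by omega)]
  rcases lt_trichotomy m n with h1 | h1 | h1
  · rw [if_neg (by omega), min_eq_left (by omega), min_eq_left (by omega), min_eq_left (by omega),
      min_eq_left (by omega)]
    abel
  · subst h1
    rw [if_pos rfl, min_self, min_self, min_eq_right (by omega), min_eq_left (by omega)]
    abel
  · rw [if_neg (by omega), min_eq_right (by omega), min_eq_right (by omega),
      min_eq_right (by omega), min_eq_right (by omega)]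
    abel

omit h h' hc in
lemma sum_piece (m : ℕ) : ∑ n ∈ range m, piece e e' D n = G e e' D m - G e e' D 0 := by
  simp only [piece]
  exact sum_range_sub (fun n => G e e' D n) m

omit h h' hc in
lemma G_zero : G e e' D 0 = 0 := by
  rcases Nat.eq_zero_or_pos D with h1 | h1
  · subst h1
    rw [G_top, E, ps, ps, range_zero, sum_empty, sum_empty, mul_zero]
  · rw [G_succ h1, E, ps, ps, range_zero, sum_empty, sum_empty, mul_zero, zero_mul]

omit hc in
lemma map_G {m : ℕ} (hm : m ≤ D) : f (G e e' D m) = f (ps e m) := by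
  have hps : ∀ m, f (ps e' m) = f (ps e m) := fun m => by rw [h.map_ps, h'.map_ps]
  have hE : ∀ m, f (E e e' m) = f (ps e m) := by
    intro m
    rw [E, map_mul, hps, ← map_mul, h.ps_idem]
  induction hm using Nat.decreasingInduction with
  | self => rw [G_top, hE]
  | of_succ m hm ih =>
    rw [G_succ hm, map_mul, hE, ih, ← map_mul]
    congr 1
    have h1 : ps e (m + 1) = ps e m + e m := by rw [ps, sum_range_succ]; rfl
    rw [h1, mul_add, h.ps_idem, h.ps_mul, if_neg (by omega), add_zero]

omit hc in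
lemma map_piece {n : ℕ} (hn : n < D) : f (piece e e' D n) = f (e n) := by
  rw [piece, map_sub, map_G h h' (by omega), map_G h h' (by omega), ← map_sub]
  congr 1
  have h1 : ps e (n + 1) = ps e n + e n := by rw [ps, sum_range_succ]; rfl
  rw [h1, add_sub_cancel_left]

lemma E_mul_piece {n : ℕ} (hn : n < D) : E e e' D * piece e e' D n = piece e e' D n := by
  have key : ∀ m ≤ D, E e e' D * G e e' D m = G e e' D m := by
    intro m hm
    have h1 := G_mul_G_of_le h h' hc hm le_rfl
    rwa [G_top] at h1
  rw [piece, mul_sub, key _ (by omega), key _ (by omega)]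

end Pool.Agent.Q28.MS
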