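import Pool.Agent.Q28.MS.Half
import Pool.Agent.Q28.MS.Ring
import Pool.Agent.Q28.MC.Geo

/-!
# Self-dual Chow-Kunneth decompositions: the criterion
-/

open CategoryTheory AlgebraicGeometry

universe u v w

namespace Pool.Agent.Q28.MS

open Pool.Agent.H914 Pool.Agent.H914.VarClass Pool.Agent.H914.VarClass.Obj Pool.Agent.W492.BB
  Pool.Agent.W550.Corr Pool.Agent.TH133 Pool.Agent.Q28.MC

set_option linter.unusedSectionVars false

variable {k : Type u} [Field k] {𝒱 : VarClass k}

variable {C : TheoryData.{u, v, 0} 𝒱 ℚ} [hC : IsChowProj C] {K : Type w} [Field K]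
  {H : WeilTheoryData.{u, v, w} C K} [hH : IsWeilProj H] {X Y Z W : 𝒱.Obj}

include hC hH

/-- **Triple products which do not raise the weights suffice.** -/
theorem exists_selfDual {π : ℕ → C.A (X.prod X)} (h : IsCK H X π)
    (ht : ∀ a b j : ℕ, a < b → a < X.dim → X.dim < j →
      C.comp (C.comp (π a) (tp C (π j))) (π b) = 0) : ∃ π, IsCK H X π ∧ IsSelfDual C π := by
  set d := X.dim with hd
  set e := sys h with he
  set e' := sys h.dual with he'
  have hS : IsSys (act0 H X) (fun i => act0 H X (sys h i)) (2 * X.dim) e := isSys h h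
  have hS' : IsSys (act0 H X) (fun i => act0 H X (sys h i)) (2 * X.dim) e' := isSys h h.dual
  have hdual : ∀ j ≤ 2 * d, dualCK C π j = tp C (π (2 * d - j)) := by
    intro j hj
    unfold dualCK
    rw [if_pos (by omega)]
  have key : ∀ a b j, a < b → a < d → j < d → e b * e' j * e a = 0 := by
    intro a b j hab ha hj
    apply Subtype.ext
    rw [he, val_sand]
    change C.comp (C.comp (π a) (dualCK C π j)) (π b) = 0
    rw [hdual j (by omega)]
    exact ht a b _ hab ha (by omega)
  have hrow : ∀ b m, m ≤ d → (∀ a < m, a < b) → e b * (ps e' m * ps e m) = 0 := by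
    intro b m hm hb
    rw [ps, ps, Finset.sum_mul, Finset.mul_sum]
    apply Finset.sum_eq_zero
    intro l hl
    rw [Finset.mem_range] at hl
    rw [Finset.mul_sum, Finset.mul_sum]
    apply Finset.sum_eq_zero
    intro a ha
    rw [Finset.mem_range] at ha
    rw [← mul_assoc]
    exact key a b l (hb a ha) (by omega) (by omega)
  have hcomm : ∀ m ≤ d, ps e m * (ps e' m * ps e m) = ps e' m * ps e m := by
    intro m hm
    have h1 : (1 - ps e m) * (ps e' m * ps e m) = 0 := by
      apply hS.eq_zero
      intro i j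
      have h2 : e i * (1 - ps e m) = if i < m then 0 else e i := by
        rw [mul_sub, mul_one, hS.mul_ps]
        split_ifs
        · exact sub_self _
        · exact sub_zero _
      rw [← mul_assoc (e i), h2]
      split_ifs with hi
      · rw [zero_mul, zero_mul]
      · rw [hrow i m hm (fun a ha => by omega), zero_mul]
    rw [sub_mul, one_mul, sub_eq_zero] at h1
    exact h1.symm
  let P : ℕ → Cor C X := fun n => (piece e e' d n : cor0 C X)
  have hEP : ∀ n < d, P n = ((ps e' d : cor0 C X) : Cor C X) * ((ps e d : cor0 C X) : Cor C X) *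
      P n := by
    intro n hn
    have h1 := congrArg (fun x : cor0 C X => (x : Cor C X)) (E_mul_piece hS hS' hcomm hn)
    exact h1.symm
  have hU : tpR C X ((ps e' d : cor0 C X) : Cor C X) =
      ((∑ j ∈ Finset.range d, e (2 * d - j) : cor0 C X) : Cor C X) := by
    rw [ps, AddSubmonoidClass.coe_finsetSum, AddSubmonoidClass.coe_finsetSum, map_sum]
    apply Finset.sum_congr rfl
    intro j hj
    rw [Finset.mem_range] at hj
    let x : Cor C X := π (2 * d - j)
    have h1 : ((e' j : cor0 C X) : Cor C X) = tpR C X x := hdual j (by omega)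
    rw [h1, tpR_tpR]
    rfl
  have hUz : (∑ j ∈ Finset.range d, e (2 * d - j)) * (ps e' d * ps e d) = 0 := by
    rw [Finset.sum_mul]
    apply Finset.sum_eq_zero
    intro j hj
    rw [Finset.mem_range] at hj
    exact hrow _ d le_rfl (fun a ha => by omega)
  have hact : ∀ n < d, act0 H X (piece e e' d n) = act0 H X (e n) := fun n hn =>
    map_piece hS hS' hn
  let P0 : ℕ → C.A (X.prod X) := fun n => P n
  have hcl : ∀ n < d, H.cl (P0 n) = H.cl (π n) := by
    intro n hn
    have h1 : act0 H X (piece e e' d n - e n) = 0 := by rw [map_sub, hact n hn, sub_self]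
    have h2 : H.cl (P0 n - π n) = 0 := (act0_eq_zero_iff _).1 h1
    rw [map_sub] at h2
    exact sub_eq_zero.1 h2
  apply selfDual_of_lower (H := H) P
  · exact fun n _ => (piece e e' d n).2
  · intro m hm n hn
    have h1 := piece_mul hS hS' hcomm hm hn
    split_ifs with hmn
    · rw [if_pos hmn] at h1
      exact congrArg (fun x : cor0 C X => (x : Cor C X)) h1
    · rw [if_neg hmn] at h1
      exact congrArg (fun x : cor0 C X => (x : Cor C X)) h1
  · intro m hm n hn
    have h1 := congrArg (fun x : cor0 C X => (x : Cor C X)) hUz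
    have h2 : ((∑ j ∈ Finset.range d, e (2 * d - j) : cor0 C X) : Cor C X) *
        (((ps e' d : cor0 C X) : Cor C X) * ((ps e d : cor0 C X) : Cor C X)) = 0 := h1
    calc tpR C X (P m) * P n = tpR C X (((ps e' d : cor0 C X) : Cor C X) *
          ((ps e d : cor0 C X) : Cor C X) * P m) * (((ps e' d : cor0 C X) : Cor C X) *
          ((ps e d : cor0 C X) : Cor C X) * P n) := by rw [← hEP m hm, ← hEP n hn]
      _ = tpR C X (P m) * tpR C X ((ps e d : cor0 C X) : Cor C X) *
          (((∑ j ∈ Finset.range d, e (2 * d - j) : cor0 C X) : Cor C X) *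
          (((ps e' d : cor0 C X) : Cor C X) * ((ps e d : cor0 C X) : Cor C X))) * P n := by
        rw [tpR_mul, tpR_mul, hU]
        simp only [mul_assoc]
      _ = 0 := by rw [h2, mul_zero, zero_mul]
  · intro n hn m a ha
    have h1 : actH C X H (P n) a = act0 H X (piece e e' d n) a := rfl
    rw [h1, hact n hn]
    exact act0_sys h n m ha
  · intro n hn m a ha
    have h1 : actH C X H (tpR C X (P n)) a = H.act (H.cl (tp C (P0 n))) a := rfl
    have h2 : H.cl (tp C (P0 n)) = H.cl (tp C (π n)) := by
      rw [cl_tp, cl_tp, hcl n hn]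
    rw [h1, h2]
    have h3 : tp C (π n) = dualCK C π (2 * d - n) := by
      rw [hdual _ (by omega)]
      congr 2
      omega
    rw [h3]
    exact h.dual.actH_eq _ m ha

/-- **The criterion.** -/
theorem selfDual_iff (X : 𝒱.Obj) : (∃ π, IsCK H X π ∧ IsSelfDual C π) ↔
    ∃ π, IsCK H X π ∧ ∀ a b j : ℕ, a < b → a < X.dim → X.dim < j →
      C.comp (C.comp (π a) (tp C (π j))) (π b) = 0 := by
  constructor
  · rintro ⟨π, h, hs⟩
    refine ⟨π, h, fun a b j hab ha hj => ?_⟩
    by_cases hj2 : j ≤ 2 * X.dim
    · rw [hs j hj2, h.comp_eq]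
      split_ifs with h1
      · exact h.orth a b hab.ne
      · exact zero_comp C _
    · rw [h.out j (by omega), tp_zero, comp_zero, zero_comp]
  · rintro ⟨π, h, ht⟩
    exact exists_selfDual h ht

end Pool.Agent.Q28.MS
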