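import Pool.Agent.Q28.MS.Defs
import Pool.Agent.Q28.MS.Main
import Pool.Agent.Q28.MM.Main

/-!
# Decompositions without raising morphisms pass to twisted direct summands
-/

open CategoryTheory AlgebraicGeometry

universe u v w

namespace Pool.Agent.Q28.MS

open Pool.Agent.H914 Pool.Agent.H914.VarClass Pool.Agent.H914.VarClass.Obj Pool.Agent.W492.BB
  Pool.Agent.W550.Corr Pool.Agent.TH133 Pool.Agent.Q28.MC

set_option linter.unusedSectionVars false

variable {k : Type u} [Field k] {𝒱 : VarClass k}

variable {C : TheoryData.{u, v, 0} 𝒱 ℚ} [hC : IsChowProj C] {K : Type w} [Field K]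
  {H : WeilTheoryData.{u, v, w} C K} [hH : IsWeilProj H] {X Y Z W : 𝒱.Obj}

section ring

variable {R S : Type*} [Ring R] [Ring S] {f : R →+* S} {p : ℕ → S} {N : ℕ} {e e' : ℕ → R}

lemma noRaise_of_flags (h : IsSys f p N e) (h' : IsSys f p N e') (hr : NoRaise e)
    (hps : ∀ m, ps e m * ps e' m = ps e' m ∧ ps e' m * ps e m = ps e m) : NoRaise e' := by
  have hinv : ∀ (x : R) (m : ℕ), ps e' m * (x * ps e' m) = x * ps e' m := by
    intro x m
    have h1 : x * ps e' m = ps e m * (x * ps e' m) := by
      have h2 := h.mul_ps_eq hr x m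
      calc x * ps e' m = x * ps e m * ps e' m := by rw [mul_assoc, (hps m).1]
        _ = ps e m * x * ps e m * ps e' m := by rw [h2]
        _ = ps e m * (x * (ps e m * ps e' m)) := by simp only [mul_assoc]
        _ = _ := by rw [(hps m).1]
    rw [h1, ← mul_assoc, (hps m).2]
  intro x a b hab
  have h1 : e' a = ps e' (a + 1) * e' a := by rw [h'.ps_mul, if_pos (by omega)]
  calc e' b * x * e' a = e' b * (x * ps e' (a + 1)) * e' a := by
        conv_lhs => rw [h1]
        simp only [mul_assoc]
    _ = e' b * (ps e' (a + 1) * (x * ps e' (a + 1))) * e' a := by rw [hinv]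
    _ = (e' b * ps e' (a + 1)) * (x * ps e' (a + 1) * e' a) := by simp only [mul_assoc]
    _ = 0 := by rw [h'.mul_ps, if_neg (by omega), zero_mul]

end ring

include hC hH

/-- A commuting decomposition without raising morphisms. -/
theorem exists_commuting {π : ℕ → C.A (X.prod X)} (h : IsCK H X π) {p : C.A (X.prod X)}
    (hp : MM.IsProjector p) (hr : NeverRaises π) :
    ∃ π', IsCK H X π' ∧ (∀ i, C.comp p (π' i) = C.comp (π' i) p) ∧ NeverRaises π' := by
  obtain ⟨e', h', hc, hps⟩ := (isSys h h).exists_commuting (q := ⟨p, hp.1⟩) (Subtype.ext hp.2)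
    (fun a b hab => by
      apply Subtype.ext
      rw [val_sand]
      exact hr p hp.1 a b hab)
    (fun i j hij => act0_sand h _ hij)
  have hck := isCK_of_isSys h h'
  refine ⟨_, hck, fun i => congrArg (fun x : cor0 C X => (x : Cor C X)) (hc i), ?_⟩
  have h1 : NoRaise e' := noRaise_of_flags (isSys h h) h' ((noRaise_iff h).2 hr) hps
  have h2 : NoRaise (sys hck) := h1
  exact (noRaise_iff hck).1 h2

/-- **Descent to twisted direct summands.** -/
theorem neverRaises_of_summand {c : ℕ} (hs : Summand C c X Z) {π : ℕ → C.A (Z.prod Z)}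
    (h : IsCK H Z π) (hr : NeverRaises π) :
    ∃ π' : ℕ → C.A (X.prod X), IsCK H X π' ∧ NeverRaises π' := by
  obtain ⟨f, g, hf, hg, hfg⟩ := hs
  have hf' : C.Deg ((X.dim : ℤ) + c - 0) f := by simpa using hf
  have hg' : C.Deg ((Z.dim : ℤ) + 0 - c) g := by simpa using hg
  set p : C.A (Z.prod Z) := C.comp g f with hpdef
  have hp : MM.IsProjector p := by
    refine ⟨?_, ?_⟩
    · have h1 := MM.comp_deg hg' hf'
      simpa using h1
    · rw [hpdef, comp_assoc, ← comp_assoc C f, hfg, dg_comp]
  have hfp : C.comp f p = f := by rw [hpdef, ← comp_assoc, hfg, dg_comp]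
  obtain ⟨e, he, hc, hre⟩ := exists_commuting h hp hr
  let t : ℕ → C.A (X.prod X) := fun j => C.comp (C.comp f (e j)) g
  have htdef : ∀ j, t j = C.comp (C.comp f (e j)) g := fun j => rfl
  have hmul : ∀ i j, C.comp (t i) (t j) = if i = j then t i else 0 := by
    intro i j
    have h1 : C.comp (t i) (t j) = C.comp (C.comp f (C.comp (e i) (e j))) g := by
      rw [htdef, htdef]
      calc C.comp (C.comp (C.comp f (e i)) g) (C.comp (C.comp f (e j)) g)
          = C.comp f (C.comp (C.comp (e i) p) (C.comp (e j) g)) := by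
            rw [hpdef]
            simp only [comp_assoc]
        _ = C.comp f (C.comp (C.comp p (e i)) (C.comp (e j) g)) := by rw [hc]
        _ = C.comp (C.comp f p) (C.comp (e i) (C.comp (e j) g)) := by simp only [comp_assoc]
        _ = _ := by
            rw [hfp]
            simp only [comp_assoc]
    rw [h1, he.comp_eq]
    split_ifs with hij
    · rfl
    · rw [comp_zero, zero_comp]
  have hraise : ∀ γ : C.A (X.prod X), C.Deg X.dim γ → ∀ a b : ℕ, a < b →
      C.comp (C.comp (t a) γ) (t b) = 0 := by
    intro γ hγ a b hab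
    have h1 : C.Deg Z.dim (C.comp (C.comp g γ) f) := by
      have h2 : C.Deg ((X.dim : ℤ) + 0 - 0) γ := by simpa using hγ
      have h3 := MM.comp_deg (MM.comp_deg hg' h2) hf'
      simpa using h3
    have h3 := hre _ h1 a b hab
    have h4 : C.comp (C.comp (t a) γ) (t b) =
        C.comp (C.comp f (C.comp (C.comp (e a) (C.comp (C.comp g γ) f)) (e b))) g := by
      rw [htdef, htdef]
      simp only [comp_assoc]
    rw [h4, h3, comp_zero, zero_comp]
  have hact : ∀ (j : ℕ) (m : ℤ) (a : H.A X), H.Deg m a →
      H.act (H.cl (t j)) a = if m + 2 * c = j then a else 0 := by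
    intro j m a ha
    have h1 : H.Deg (m + 2 * ((c : ℤ) - 0)) (H.act (H.cl f) a) := MM.actH_deg hf' ha
    rw [sub_zero] at h1
    rw [htdef, TH133.actH_comp, TH133.actH_comp, he.actH_eq _ _ h1]
    split_ifs with hm
    · rw [← TH133.actH_comp, hfg, TH133.actH_dg]
    · exact TheoryData.act_map_zero _ _
  have he' : ∀ j, C.Deg ((Z.dim : ℤ) + c - c) (e j) := fun j => by simpa using he.deg j
  have htdeg : ∀ j, C.Deg X.dim (t j) := by
    intro j
    have h1 := MM.comp_deg (MM.comp_deg hf' (he' j)) hg'
    simpa using h1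
  -- merge the projectors outside the range
  set M := Z.dim * 2 + 2 * X.dim + 2 * c + 1 with hM
  let φ : ℕ → ℕ := fun j => min (2 * X.dim) (j - 2 * c)
  have hφle : ∀ j, φ j ≤ 2 * X.dim := fun j => min_le_left _ _
  have hφmono : ∀ j l, φ j < φ l → j < l := by
    intro j l hjl
    simp only [φ] at hjl
    omega
  have hsum : ∑ j ∈ Finset.range M, t j = dg C X := by
    simp only [t]
    rw [← sum_comp, ← comp_sum, he.sum_of_le (by omega), comp_dg, hfg]
  let π' : ℕ → C.A (X.prod X) := fun i => ∑ j ∈ (Finset.range M).filter (fun j => φ j = i), t j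
  have hπdef : ∀ i, π' i = ∑ j ∈ (Finset.range M).filter (fun j => φ j = i), t j := fun i => rfl
  have hcomp : ∀ i i', C.comp (π' i) (π' i') = if i = i' then π' i else 0 := by
    intro i i'
    rw [hπdef, hπdef, sum_comp]
    simp_rw [comp_sum, hmul]
    split_ifs with hii
    · subst hii
      apply Finset.sum_congr rfl
      intro j hj
      rw [Finset.sum_eq_single j]
      · rw [if_pos rfl]
      · intro l _ hl
        rw [if_neg (Ne.symm hl)]
      · intro h1
        exact absurd hj h1
    · apply Finset.sum_eq_zero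
      intro j hj
      apply Finset.sum_eq_zero
      intro l hl
      rw [Finset.mem_filter] at hj hl
      rw [if_neg]
      intro h1
      apply hii
      rw [← hj.2, ← hl.2, h1]
  have hckact : ∀ (i : ℕ) (m : ℤ) (a : H.A X), H.Deg m a →
      H.act (H.cl (π' i)) a = if m = i then a else 0 := by
    intro i m a ha
    by_cases ha0 : a = 0
    · rw [ha0, TheoryData.act_map_zero]
      split_ifs <;> rfl
    have hm1 : 0 ≤ m := nonneg_of_mem H ha ha0
    have hm2 : m ≤ 2 * X.dim := by
      by_contra hcon
      exact ha0 (MM.eq_zero_of_deg (H := H) ha (Or.inr (by omega)))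
    obtain ⟨n, rfl⟩ := Int.eq_ofNat_of_zero_le hm1
    have hn : n ≤ 2 * X.dim := by exact_mod_cast hm2
    have h1 : H.act (H.cl (π' i)) a =
        ∑ j ∈ (Finset.range M).filter (fun j => φ j = i), H.act (H.cl (t j)) a := by
      rw [hπdef, map_sum, act_sum]
    rw [h1]
    have h2 : ∀ j, H.act (H.cl (t j)) a = if n + 2 * c = j then a else 0 := by
      intro j
      rw [hact j n a ha]
      by_cases hj : n + 2 * c = j
      · rw [if_pos hj, if_pos (by omega)]
      · rw [if_neg hj, if_neg (by omega)]
    simp_rw [h2]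
    rw [Finset.sum_ite_eq]
    have h3 : φ (n + 2 * c) = n := by
      simp only [φ]
      omega
    by_cases hni : n = i
    · rw [if_pos, if_pos (by exact_mod_cast hni)]
      rw [Finset.mem_filter, Finset.mem_range, h3]
      exact ⟨by omega, hni⟩
    · rw [if_neg, if_neg (by exact_mod_cast hni)]
      rw [Finset.mem_filter, h3]
      exact fun h4 => hni h4.2
  refine ⟨π', ⟨fun i => ?_, fun i hi => ?_, fun i => ?_, fun i j hij => ?_, ?_, fun i a ha => ?_,
    fun i m a hm ha => ?_⟩, ?_⟩
  · exact Submodule.sum_mem _ fun j _ => htdeg j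
  · rw [hπdef]
    apply Finset.sum_eq_zero
    intro j hj
    rw [Finset.mem_filter] at hj
    have := hφle j
    omega
  · rw [hcomp, if_pos rfl]
  · rw [hcomp, if_neg hij]
  · rw [← hsum]
    simp only [π']
    rw [Finset.sum_fiberwise_of_maps_to]
    intro j _
    rw [Finset.mem_range]
    have := hφle j
    omega
  · rw [hckact i i a ha, if_pos rfl]
  · rw [hckact i m a ha, if_neg hm]
  · intro γ hγ i i' hii
    rw [hπdef, hπdef, sum_comp, sum_comp]
    apply Finset.sum_eq_zero
    intro j hj
    rw [comp_sum]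
    apply Finset.sum_eq_zero
    intro l hl
    rw [Finset.mem_filter] at hj hl
    exact hraise γ hγ j l (hφmono j l (by rw [hj.2, hl.2]; exact hii))

theorem selfDual_of_neverRaises {π : ℕ → C.A (X.prod X)} (h : IsCK H X π) (hr : NeverRaises π) :
    HasSelfDualCK H X :=
  exists_selfDual h fun a b j hab _ _ => hr _ (tp_mem C (h.deg j)) a b hab

lemma lowerHalf_of_selfDual (h : HasSelfDualCK H X) : HasLowerHalf H X := by
  obtain ⟨π, h, hs⟩ := h
  refine ⟨π, fun n _ => h.deg n, fun m _ n _ => h.comp_eq m n, fun n _ m a ha => h.actH_eq n m ha,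
    fun m hm n hn => ?_⟩
  rw [hs m (by omega), h.orth _ _ (by omega)]

lemma selfDual_of_lowerHalf (h : HasLowerHalf H X) : HasSelfDualCK H X := by
  obtain ⟨q, h1, h2, h3, h4⟩ := h
  have htact : ∀ n < X.dim, ∀ (m : ℤ) (a : H.A X), a ∈ H.gr X m →
      H.act (H.cl (tp C (q n))) a = if m = (2 * X.dim - n : ℕ) then a else 0 := by
    intro n hn m b hb
    rw [← sub_eq_zero]
    apply H.nondeg
    have h5 : H.tr X ∘ₗ LinearMap.mulLeft K (H.act (H.cl (tp C (q n))) b) =
        H.tr X ∘ₗ LinearMap.mulLeft K (if m = (2 * X.dim - n : ℕ) then b else 0) := by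
      apply ext_gr H
      intro l a ha
      rw [LinearMap.comp_apply, LinearMap.comp_apply, LinearMap.mulLeft_apply,
        LinearMap.mulLeft_apply, tr_act' H, h3 n hn l a ha]
      by_cases hm : m = (2 * X.dim - n : ℕ)
      · rw [if_pos hm]
        split_ifs with hl
        · rfl
        · rw [mul_zero, map_zero]
          exact (tr_zero H (H.mul_mem hb ha) (by omega)).symm
      · rw [if_neg hm, zero_mul, map_zero]
        split_ifs with hl
        · exact tr_zero H (H.mul_mem hb ha) (by omega)
        · rw [mul_zero, map_zero]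
    intro a
    have h6 := LinearMap.congr_fun h5 a
    rw [LinearMap.comp_apply, LinearMap.comp_apply, LinearMap.mulLeft_apply,
      LinearMap.mulLeft_apply] at h6
    rw [sub_mul, map_sub, h6, sub_self]
  apply selfDual_of_lower (H := H) (fun n => (q n : Cor C X))
  · exact h1
  · intro m hm n hn
    have h5 := h2 n hn m hm
    by_cases hmn : m = n
    · subst hmn
      rw [if_pos rfl] at h5
      exact h5.trans (if_pos rfl).symm
    · rw [if_neg (Ne.symm hmn)] at h5
      exact h5.trans (if_neg hmn).symm
  · intro m hm n hn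
    exact h4 m hm n hn
  · exact h3
  · exact htact

end Pool.Agent.Q28.MS
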