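import Pool.Agent.TH133.Defs

/-!
# Self-dual Chow-Kunneth decompositions: definitions
-/

open CategoryTheory AlgebraicGeometry

universe u v w

namespace Pool.Agent.Q28.MS

open Pool.Agent.H914 Pool.Agent.H914.VarClass Pool.Agent.H914.VarClass.Obj Pool.Agent.W492.BB
  Pool.Agent.W550.Corr Pool.Agent.TH133

variable {k : Type u} [Field k] {𝒱 : VarClass k}

/-- The Tate twist `h(X)(-c)` of the Chow motive of `X` is a direct summand of the Chow motive of
`Z`: there are correspondences `f ∈ CH^(dim X + c)(X × Z)`, `g ∈ CH^(dim Z - c)(Z × X)` with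
`g ∘ f = Δ_X`. -/
def Summand (C : TheoryData.{u, v, 0} 𝒱 ℚ) (c : ℕ) (X Z : 𝒱.Obj) : Prop :=
  ∃ (f : C.A (X.prod Z)) (g : C.A (Z.prod X)), C.Deg ((X.dim : ℤ) + c) f ∧
    C.Deg ((Z.dim : ℤ) - c) g ∧ C.comp f g = dg C X

variable {C : TheoryData.{u, v, 0} 𝒱 ℚ}

/-- There is no non-zero morphism from `h^a(X)` to `h^b(X)` for `a < b`, where `h^i(X)` are the
summands of the Chow motive of `X` given by the one Chow-Kunneth decomposition `π`:
`π_b ∘ γ ∘ π_a = 0` for all self-correspondences `γ` of degree zero. -/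
def NeverRaises {X : 𝒱.Obj} (π : ℕ → C.A (X.prod X)) : Prop :=
  ∀ γ : C.A (X.prod X), C.Deg X.dim γ → ∀ a b : ℕ, a < b → C.comp (C.comp (π a) γ) (π b) = 0

variable {K : Type w} [Field K] (H : WeilTheoryData.{u, v, w} C K)

/-- `X` has a self-dual Chow-Kunneth decomposition. -/
def HasSelfDualCK (X : 𝒱.Obj) : Prop := ∃ π, IsCK H X π ∧ IsSelfDual C π

/-- The lower half of a Chow-Kunneth decomposition of `X` compatible with duality: mutually
orthogonal projectors `q n` of degree zero, `n < dim X`, such that `q n` acts as the identity on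
`H^n(X)` and as zero on the other `H^m(X)`, and `(σ^* q m) ∘ q n = 0` for all `m, n < dim X`. -/
def HasLowerHalf (X : 𝒱.Obj) : Prop :=
  ∃ q : ℕ → C.A (X.prod X), (∀ n < X.dim, C.Deg X.dim (q n)) ∧
    (∀ m < X.dim, ∀ n < X.dim, C.comp (q m) (q n) = if m = n then q m else 0) ∧
    (∀ n < X.dim, ∀ (m : ℤ) (a : H.A X), H.Deg m a →
      H.act (H.cl (q n)) a = if m = n then a else 0) ∧
    ∀ m < X.dim, ∀ n < X.dim, C.comp (q n) (tp C (q m)) = 0

end Pool.Agent.Q28.MS
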