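import Pool.Agent.TH133.SelfDual

/-!
# Self-dual Chow-Kunneth decompositions from projectors below the middle degree
-/

open CategoryTheory AlgebraicGeometry

universe u v w

namespace Pool.Agent.Q28.MS

open Pool.Agent.H914 Pool.Agent.H914.VarClass Pool.Agent.H914.VarClass.Obj Pool.Agent.W492.BB
  Pool.Agent.W550.Corr Pool.Agent.TH133

set_option linter.unusedSectionVars false

variable {k : Type u} [Field k] {𝒱 : VarClass k}

variable {C : TheoryData.{u, v, 0} 𝒱 ℚ} [hC : IsChowProj C] {K : Type w} [Field K]
  {H : WeilTheoryData.{u, v, w} C K} [hH : IsWeilProj H] {X Y Z W : 𝒱.Obj}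

include hC hH

/-- A self-dual Chow-Kunneth decomposition from projectors `P n`, `n < dim X`, whose transposes are
orthogonal to them on one side. -/
theorem selfDual_of_lower (P : ℕ → Cor C X) (hPm : ∀ n < X.dim, P n ∈ cor0 C X)
    (hPP : ∀ m < X.dim, ∀ n < X.dim, P m * P n = if m = n then P m else 0)
    (hTP : ∀ m < X.dim, ∀ n < X.dim, tpR C X (P m) * P n = 0)
    (hPa : ∀ n < X.dim, ∀ (m : ℤ) (a : H.A X), a ∈ H.gr X m →
      actH C X H (P n) a = if m = n then a else 0)
    (htact : ∀ n < X.dim, ∀ (m : ℤ) (a : H.A X), a ∈ H.gr X m →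
      actH C X H (tpR C X (P n)) a = if m = (2 * X.dim - n : ℕ) then a else 0) :
    ∃ π, IsCK H X π ∧ IsSelfDual C π := by
  set d := X.dim with hd
  let e : Cor C X := ∑ n ∈ Finset.range d, P n
  have hem : e ∈ cor0 C X := (cor0 C X).sum_mem fun n hn => hPm n (Finset.mem_range.1 hn)
  have hPe : ∀ n < d, P n * e = P n := by
    intro n hn
    simp only [e]
    rw [Finset.mul_sum, Finset.sum_eq_single n]
    · rw [hPP n hn n hn, if_pos rfl]
    · intro m hm hmn
      rw [hPP n hn m (Finset.mem_range.1 hm), if_neg (Ne.symm hmn)]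
    · intro h
      exact absurd (Finset.mem_range.2 hn) h
  have hteP : ∀ n < d, tpR C X e * P n = 0 := by
    intro n hn
    simp only [e]
    rw [map_sum, Finset.sum_mul]
    exact Finset.sum_eq_zero fun m hm => hTP m (Finset.mem_range.1 hm) n hn
  let q : ℕ → Cor C X := fun n => if n < d then P n - (1 / 2 : ℚ) • (P n * tpR C X e) else 0
  have q1 : ∀ n < d, q n = P n - (1 / 2 : ℚ) • (P n * tpR C X e) := fun n hn => by
    simp only [q]; rw [if_pos hn]
  have q2 : ∀ n, ¬ n < d → q n = 0 := fun n hn => by simp only [q]; rw [if_neg hn]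
  have tq1 : ∀ n < d, tpR C X (q n) = tpR C X (P n) - (1 / 2 : ℚ) • (e * tpR C X (P n)) := by
    intro n hn
    rw [q1 n hn, map_sub, tpR_smul, tpR_mul, tpR_tpR]
  have tePt : ∀ n < d, tpR C X e * tpR C X (P n) = tpR C X (P n) := by
    intro n hn
    rw [← tpR_mul, hPe n hn]
  have heact : ∀ (m : ℤ) (a : H.A X), a ∈ H.gr X m → actH C X H e a = if m < d then a else 0 := by
    intro m a ha
    simp only [e]
    rw [map_sum, LinearMap.sum_apply]
    by_cases ha0 : a = 0
    · subst ha0
      simp
    have hm0 := nonneg_of_mem H ha ha0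
    obtain ⟨m, rfl⟩ := Int.eq_ofNat_of_zero_le hm0
    by_cases hmd : (m : ℤ) < d
    · rw [if_pos hmd, Finset.sum_eq_single m]
      · rw [hPa m (by omega) _ _ ha, if_pos rfl]
      · intro j hj hjm
        rw [hPa j (Finset.mem_range.1 hj) _ _ ha, if_neg]
        intro h; apply hjm; exact_mod_cast h.symm
      · intro h
        exfalso; apply h; rw [Finset.mem_range]; omega
    · rw [if_neg hmd]
      apply Finset.sum_eq_zero
      intro j hj
      rw [Finset.mem_range] at hj
      rw [hPa j hj _ _ ha, if_neg (by omega)]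
  have hteact : ∀ (m : ℤ) (a : H.A X), a ∈ H.gr X m → m ≤ d → actH C X H (tpR C X e) a = 0 := by
    intro m a ha hm
    simp only [e]
    rw [map_sum, map_sum, LinearMap.sum_apply]
    apply Finset.sum_eq_zero
    intro j hj
    rw [Finset.mem_range] at hj
    rw [htact j hj m a ha, if_neg (by omega)]
  apply selfDual_of_half (H := H) q
  · intro n
    simp only [q]
    split_ifs with hn
    · exact (cor0 C X).sub_mem (hPm n hn) (Submodule.smul_mem (C.gr (X.prod X) X.dim) _
        ((cor0 C X).mul_mem (hPm n hn) (tpR_mem hem)))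
    · exact (cor0 C X).zero_mem
  · intro n hn
    exact q2 n (by omega)
  · intro m n
    by_cases hm : m < d
    · by_cases hn : n < d
      · rw [q1 m hm, q1 n hn, sub_mul, mul_sub, mul_sub, smul_mul_assoc, smul_mul_assoc,
          mul_smul_comm, mul_smul_comm, mul_assoc (P m) (tpR C X e) (P n), hteP n hn,
          mul_assoc (P m) (tpR C X e) (P n * _), ← mul_assoc (tpR C X e) (P n), hteP n hn,
          ← mul_assoc (P m) (P n), hPP m hm n hn]
        split_ifs with h
        · simp
        · simp
      · rw [q2 n hn, mul_zero, if_neg (by omega)]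
    · rw [q2 m hm, zero_mul]
      split_ifs <;> rfl
  · intro m n
    by_cases hm : m < d
    · by_cases hn : n < d
      · have e1 : P m * (e * tpR C X (P n)) = P m * tpR C X (P n) := by
          rw [← mul_assoc, hPe m hm]
        have e2 : P m * tpR C X e * tpR C X (P n) = P m * tpR C X (P n) := by
          rw [mul_assoc, tePt n hn]
        have e3 : P m * tpR C X e * (e * tpR C X (P n)) = 0 := by
          have e4 : tpR C X e * e = 0 := by
            have : tpR C X e * e = ∑ n ∈ Finset.range d, tpR C X e * P n := by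
              rw [← Finset.mul_sum]
            rw [this]
            exact Finset.sum_eq_zero fun n hn => hteP n (Finset.mem_range.1 hn)
          rw [mul_assoc, ← mul_assoc (tpR C X e) e, e4, zero_mul, mul_zero]
        rw [q1 m hm, tq1 n hn, sub_mul, mul_sub, mul_sub, smul_mul_assoc, smul_mul_assoc,
          mul_smul_comm, mul_smul_comm, e1, e2, e3, smul_zero, smul_zero, sub_zero]
        rw [sub_sub, ← add_smul]
        norm_num
      · rw [q2 n hn, map_zero, mul_zero]
    · rw [q2 m hm, zero_mul]
  · intro m n
    by_cases hm : m < d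
    · by_cases hn : n < d
      · rw [q1 n hn, tq1 m hm, sub_mul, mul_sub, mul_sub, smul_mul_assoc, smul_mul_assoc,
          mul_smul_comm, mul_smul_comm, ← mul_assoc (tpR C X (P m)) (P n),
          mul_assoc e (tpR C X (P m)) (P n), mul_assoc e (tpR C X (P m)) (P n * _),
          ← mul_assoc (tpR C X (P m)) (P n), hTP m hm n hn]
        simp
      · rw [q2 n hn, mul_zero]
    · rw [q2 m hm, map_zero, zero_mul]
  · intro n m a hn ha
    rw [q1 n hn, map_sub, LinearMap.sub_apply, hPa n hn m _ ha]
    have h0 : actH C X H (P n * tpR C X e) a = 0 := by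
      by_cases hmd : m ≤ d
      · rw [map_mul, Module.End.mul_apply, hteact m a ha hmd, map_zero]
      · rw [map_mul, Module.End.mul_apply, hPa n hn m _ (actH_mem0 (tpR_mem hem) ha),
          if_neg (by omega)]
    rw [Algebra.smul_def, map_mul, Module.End.mul_apply, h0, map_zero, sub_zero]
  · intro n m a hn ha
    rw [tq1 n hn, map_sub, LinearMap.sub_apply, htact n hn m a ha, Algebra.smul_def, map_mul,
      map_mul, Module.End.mul_apply, Module.End.mul_apply, htact n hn m a ha]
    split_ifs with h
    · rw [heact m a ha, if_neg (by omega), map_zero, sub_zero]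
    · rw [map_zero, map_zero, sub_zero]

end Pool.Agent.Q28.MS
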